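import Pool.Agent.helper94.PL.Spec

set_option autoImplicit false

open Complex Metric Set Filter Topology MeasureTheory MPS
open Pool.Agent.helper16.Multibrot

noncomputable section

namespace PLY

theorem PL0_exp_mem {ζ : ℂ} (h : ζ ∈ St) : Complex.exp ζ ∈ RH := by
  have h1 : |ζ.im| < Real.pi / 2 := h
  rw [abs_lt] at h1
  show 0 < (Complex.exp ζ).re
  rw [Complex.exp_re]
  exact mul_pos (Real.exp_pos _) (Real.cos_pos_of_mem_Ioo ⟨h1.1, h1.2⟩)

theorem PL0_exp_inj {ζ ζ' : ℂ} (h : ζ ∈ St) (h' : ζ' ∈ St) (he : Complex.exp ζ = Complex.exp ζ') :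
    ζ = ζ' := by
  have h1 : |ζ.im| < Real.pi / 2 := h
  have h2 : |ζ'.im| < Real.pi / 2 := h'
  rw [abs_lt] at h1 h2
  have hp := Real.pi_pos
  exact Complex.exp_inj_of_neg_pi_lt_of_le_pi (by linarith [h1.1]) (by linarith [h1.2])
    (by linarith [h2.1]) (by linarith [h2.2]) he

theorem PL0 (h1 : ETA_stmt) (h2 : PLA_stmt) : PL0_stmt := by
  intro n K c z E Θ hn hc hE hK hz hmu hΘ
  obtain ⟨η, hη, hinj⟩ := h1 n K c z E Θ hn hc hE hK hz hmu hΘ
  have hn1 : (1 : ℝ) < n := by exact_mod_cast (by omega : 1 < n)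
  have hlog : 0 < Real.log n := Real.log_pos hn1
  have hK' : (0 : ℝ) < K := by exact_mod_cast hK
  have hL : 0 < (K : ℝ) * Real.log n := mul_pos hK' hlog
  have hexp : Complex.exp (((K : ℝ) * Real.log n : ℝ) : ℂ) = (n : ℂ) ^ K := by
    rw [← Complex.ofReal_exp, mul_comm, Real.exp_mul, Real.exp_log (by linarith),
      Real.rpow_natCast]
    push_cast
    rfl
  have key := h2 Θ (fun θ ζ => η θ (Complex.exp ζ)) ((K : ℝ) * Real.log n) (mlt n K c z) hL hmu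
    (fun θ hθ => by
      obtain ⟨hd, hs⟩ := hη θ hθ
      refine ⟨hd.comp Complex.differentiable_exp.differentiableOn
        (fun ζ hζ => PL0_exp_mem hζ), fun ζ hζ => ?_⟩
      obtain ⟨hne, hfe⟩ := hs (Complex.exp ζ) (PL0_exp_mem hζ)
      refine ⟨hne, ?_⟩
      show η θ (Complex.exp (ζ + (((K : ℝ) * Real.log n : ℝ) : ℂ))) = _
      rw [Complex.exp_add, hexp, mul_comm, hfe])
    (fun θ hθ θ' hθ' ζ hζ ζ' hζ' he => by
      obtain ⟨e1, e2⟩ := hinj θ hθ θ' hθ' _ (PL0_exp_mem hζ) _ (PL0_exp_mem hζ') he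
      exact ⟨e1, PL0_exp_inj hζ hζ' e2⟩)
  linarith

end PLY
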